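import Pool.Agent.Helper27_UBT.Stmts

open Polynomial NumberField
open scoped Pointwise

namespace UBT.H9

theorem factor {G : Type*} [Group G] [Finite G] (H : Subgroup G) {n : ℕ} (hn : n.Prime)
    (hidx : H.index = n) (σ : G) (hσ : orderOf σ = n) (hσH : σ ∉ H) (γ : G) :
    ∃ h ∈ H, ∃ s ∈ Subgroup.zpowers σ, γ = h * s := by
  classical
  have hcap : ∀ s ∈ Subgroup.zpowers σ, s ∈ H → s = 1 := by
    intro s hs hsH
    by_contra hne
    have hle : Subgroup.zpowers s ≤ Subgroup.zpowers σ := by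
      rw [Subgroup.zpowers_le]; exact hs
    have hdvd : orderOf s ∣ n := by
      rw [← hσ]
      exact orderOf_dvd_of_mem_zpowers hs
    have hos : orderOf s = n := by
      rcases (Nat.dvd_prime hn).mp hdvd with h | h
      · exact absurd (orderOf_eq_one_iff.mp h) hne
      · exact h
    have heq : Subgroup.zpowers s = Subgroup.zpowers σ := by
      apply Subgroup.eq_of_le_of_card_ge hle
      rw [Nat.card_zpowers, Nat.card_zpowers, hos, hσ]
    apply hσH
    have : σ ∈ Subgroup.zpowers s := by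
      rw [heq]; exact Subgroup.mem_zpowers σ
    have hle2 : Subgroup.zpowers s ≤ H := by
      rw [Subgroup.zpowers_le]; exact hsH
    exact hle2 this
  let φ : Subgroup.zpowers σ → G ⧸ H := fun s => ((s : G) : G ⧸ H)
  have hinj : Function.Injective φ := by
    intro s t hst
    have h1 : (s : G)⁻¹ * (t : G) ∈ H := QuotientGroup.eq.mp hst
    have h2 := hcap _ (Subgroup.mul_mem _ (Subgroup.inv_mem _ s.2) t.2) h1
    apply Subtype.ext
    exact (inv_mul_eq_one.mp h2)
  have hcard : Nat.card (Subgroup.zpowers σ) = Nat.card (G ⧸ H) := by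
    rw [Nat.card_zpowers, hσ, ← hidx]; rfl
  have hbij : Function.Bijective φ := (Nat.bijective_iff_injective_and_card φ).mpr ⟨hinj, hcard⟩
  obtain ⟨s, hs⟩ := hbij.2 ((γ⁻¹ : G) : G ⧸ H)
  have h1 : (s : G)⁻¹ * γ⁻¹ ∈ H := QuotientGroup.eq.mp hs
  refine ⟨γ * s, ?_, (s : G)⁻¹, Subgroup.inv_mem _ s.2, by group⟩
  have := H.inv_mem h1
  simpa using this

theorem core (K L M : Type) [Field K] [NumberField K] [Field L] [NumberField L] [Field M]
    [NumberField M] [Algebra K L] [Algebra L M] [Algebra K M] [IsScalarTower K L M] [IsGalois K M]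
    (hn : (Module.finrank K L).Prime) (σ : Gal(M/K)) (hσ : orderOf σ = Module.finrank K L)
    (hx : ∃ x : L, σ (algebraMap L M x) ≠ algebraMap L M x)
    (P' : Ideal (𝓞 (IntermediateField.fixedField (Subgroup.zpowers σ)))) (hP' : P'.IsPrime)
    (hns : Nonsplit (IntermediateField.fixedField (Subgroup.zpowers σ)) M P') :
    Nonsplit K L (P'.under (𝓞 K)) := by
  classical
  intro Q₁ Q₂ hQ₁ hQ₂ hl₁ hl₂
  let E := IntermediateField.fixedField (Subgroup.zpowers σ)
  obtain ⟨⟨𝔐, h𝔐p, h𝔐l⟩⟩ := Ideal.nonempty_primesOver (S := 𝓞 M) P'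
  -- the subgroup fixing the image of L
  let f : L →ₐ[K] M := IsScalarTower.toAlgHom K L M
  let H := f.fieldRange.fixingSubgroup
  have hidx : H.index = Module.finrank K L := by
    rw [← IntermediateField.finrank_eq_fixingSubgroup_index]
    exact (AlgEquiv.ofInjectiveField f).toLinearEquiv.finrank_eq.symm
  have hσH : σ ∉ H := by
    obtain ⟨x, hx⟩ := hx
    intro h
    apply hx
    have := (IntermediateField.mem_fixingSubgroup_iff _ _).mp h (f x) ⟨x, rfl⟩
    exact this
  have key : ∀ Q : Ideal (𝓞 L), Q.IsPrime → Q.LiesOver (P'.under (𝓞 K)) →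
      Q = 𝔐.under (𝓞 L) := by
    intro Q hQ hl
    obtain ⟨⟨𝔐', h𝔐p', h𝔐l'⟩⟩ := Ideal.nonempty_primesOver (S := 𝓞 M) Q
    have h1 : 𝔐'.LiesOver (P'.under (𝓞 K)) := Ideal.LiesOver.trans 𝔐' Q _
    have h2 : 𝔐.LiesOver (P'.under (𝓞 K)) := Ideal.LiesOver.trans 𝔐 P' _
    obtain ⟨γ, hγ⟩ := Ideal.exists_smul_eq_of_isGaloisGroup (P'.under (𝓞 K)) 𝔐 𝔐' Gal(M/K)
    obtain ⟨h, hh, s, hs, rfl⟩ := factor H hn hidx σ hσ hσH γ
    have hs𝔐 : s • 𝔐 = 𝔐 := by
      refine hns (s • 𝔐) 𝔐 inferInstance h𝔐p ?_ h𝔐l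
      constructor
      rw [Ideal.LiesOver.over (p := P') (P := 𝔐)]
      ext x
      rw [Ideal.under_def, Ideal.under_def, Ideal.mem_comap, Ideal.mem_comap,
        Ideal.mem_pointwise_smul_iff_inv_smul_mem]
      have hfix : s⁻¹ • (algebraMap (𝓞 E) (𝓞 M) x) = algebraMap (𝓞 E) (𝓞 M) x := by
        apply RingOfIntegers.ext
        have h3 : s⁻¹ ∈ Subgroup.zpowers σ := Subgroup.inv_mem _ hs
        exact (IntermediateField.mem_fixedField_iff _ _).mp (x : E).2 s⁻¹ h3
      rw [hfix]
    rw [mul_smul, hs𝔐] at hγ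
    rw [Ideal.LiesOver.over (p := Q) (P := 𝔐'), ← hγ]
    ext x
    rw [Ideal.under_def, Ideal.under_def, Ideal.mem_comap, Ideal.mem_comap,
      Ideal.mem_pointwise_smul_iff_inv_smul_mem]
    have hfix : h⁻¹ • (algebraMap (𝓞 L) (𝓞 M) x) = algebraMap (𝓞 L) (𝓞 M) x := by
      apply RingOfIntegers.ext
      exact (IntermediateField.mem_fixingSubgroup_iff _ _).mp (H.inv_mem hh) (f x) ⟨x, rfl⟩
    rw [hfix]
  rw [key Q₁ hQ₁ hl₁, key Q₂ hQ₂ hl₂]

theorem cheb (hCH3 : CH3Stmt) : ChebStmt := by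
  intro K L _ _ _ _ _ hn B
  classical
  let pb := Field.powerBasisOfFiniteOfSeparable K L
  let P := minpoly K pb.gen
  have hint : IsIntegral K pb.gen := pb.isIntegral_gen
  have hirr : Irreducible P := minpoly.irreducible hint
  have hP0 : P ≠ 0 := hirr.ne_zero
  let M : Type := P.SplittingField
  have hsplit : (P.map (algebraMap K M)).Splits := IsSplittingField.splits M P
  have hadj : Algebra.adjoin K (P.rootSet M) = ⊤ := IsSplittingField.adjoin_rootSet M P
  have hfin : FiniteDimensional K M := inferInstanceAs (FiniteDimensional K P.SplittingField)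
  let nfM : NumberField M := NumberField.of_module_finite K M
  have hgal : IsGalois K M :=
    IsGalois.of_separable_splitting_field (p := P) hirr.separable
  -- a first embedding
  have hroot : ∃ r : M, aeval r P = 0 := by
    have hdeg : (P.map (algebraMap K M)).degree ≠ 0 := by
      rw [degree_map]
      exact (minpoly.degree_pos hint).ne'
    obtain ⟨r, hr⟩ := hsplit.exists_eval_eq_zero hdeg
    exact ⟨r, by rwa [eval_map_algebraMap] at hr⟩
  have hdvd : Module.finrank K L ∣ Nat.card Gal(M/K) := by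
    obtain ⟨r, hr⟩ := hroot
    let f : L →ₐ[K] M := pb.lift r hr
    let _ : Algebra L M := f.toRingHom.toAlgebra
    have _ : IsScalarTower K L M := IsScalarTower.of_algebraMap_eq fun x => (f.commutes x).symm
    rw [IsGalois.card_aut_eq_finrank K M, ← Module.finrank_mul_finrank K L M]
    exact dvd_mul_right _ _
  have _ : Fact (Module.finrank K L).Prime := ⟨hn⟩
  obtain ⟨σ, hσ⟩ := exists_prime_orderOf_dvd_card' (Module.finrank K L) hdvd
  have hσ1 : σ ≠ 1 := by
    intro h
    rw [h, orderOf_one] at hσ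
    exact hn.one_lt.ne hσ
  obtain ⟨r, hr, hσr⟩ : ∃ r : M, aeval r P = 0 ∧ σ r ≠ r := by
    by_contra! hcon
    apply hσ1
    have h1 : (σ : M →ₐ[K] M) = AlgHom.id K M := by
      apply AlgHom.ext_of_adjoin_eq_top hadj
      intro x hx
      exact hcon x (mem_rootSet.mp hx).2
    ext x
    exact congrArg (fun g : M →ₐ[K] M => g x) h1
  let f : L →ₐ[K] M := pb.lift r hr
  let _ : Algebra L M := f.toRingHom.toAlgebra
  have _ : IsScalarTower K L M := IsScalarTower.of_algebraMap_eq fun x => (f.commutes x).symm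
  have hx : ∃ x : L, σ (algebraMap L M x) ≠ algebraMap L M x := by
    refine ⟨pb.gen, ?_⟩
    have : algebraMap L M pb.gen = r := pb.lift_gen r hr
    rw [this]
    exact hσr
  have hfr : Module.finrank (IntermediateField.fixedField (Subgroup.zpowers σ)) M
      = Module.finrank K L := by
    rw [IntermediateField.finrank_fixedField_eq_card, Nat.card_zpowers, hσ]
  obtain ⟨p, hp, hBp, P', hP', hpP', hns⟩ :=
    hCH3 (IntermediateField.fixedField (Subgroup.zpowers σ)) M (by rw [hfr]; exact hn) B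
  refine ⟨p, hp, hBp, P'.under (𝓞 K), inferInstance, ?_, core K L M hn σ hσ hx P' hP' hns⟩
  rw [Ideal.under_def, Ideal.mem_comap, map_natCast]
  exact hpP'

end UBT.H9
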