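import Pool.Agent.Helper27_UBT.Stmts

/-! UBT, module GLB. -/

open Polynomial NumberField IsDedekindDomain
open H58Q

namespace UBT.H9

theorem card_le (E : Type) [Field E] [NumberField E] (w : HeightOneSpectrum (𝓞 E)) (p : ℕ)
    (hp : p.Prime) (hpw : ((p : ℕ) : 𝓞 E) ∈ w.asIdeal) :
    Finite (𝓞 E ⧸ w.asIdeal) ∧ Nat.card (𝓞 E ⧸ w.asIdeal) ≤ p ^ (Module.finrank ℚ E) := by
  have h1 : Ideal.absNorm w.asIdeal ≠ 0 := by
    rw [Ne, Ideal.absNorm_eq_zero_iff]
    exact w.ne_bot
  have hfin : Finite (𝓞 E ⧸ w.asIdeal) := Ideal.absNorm_ne_zero_iff _ |>.1 h1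
  refine ⟨hfin, ?_⟩
  have h2 : Ideal.absNorm w.asIdeal ∣ Ideal.absNorm (Ideal.span {((p : ℕ) : 𝓞 E)}) := by
    apply Ideal.absNorm_dvd_absNorm_of_le
    rw [Ideal.span_singleton_le_iff_mem]
    exact hpw
  have h3 : Ideal.absNorm (Ideal.span {((p : ℕ) : 𝓞 E)}) = p ^ (Module.finrank ℚ E) := by
    rw [Ideal.absNorm_span_singleton]
    have h4 : ((p : ℕ) : 𝓞 E) = algebraMap ℤ (𝓞 E) p := by simp
    rw [h4, Algebra.norm_algebraMap, RingOfIntegers.rank, Int.natAbs_pow, Int.natAbs_natCast]
  have h5 : Nat.card (𝓞 E ⧸ w.asIdeal) = Ideal.absNorm w.asIdeal := by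
    rw [Ideal.absNorm_apply, Submodule.cardQuot_apply]
  rw [h5]
  rw [h3] at h2
  exact Nat.le_of_dvd (pow_pos hp.pos _) h2

theorem glb (hLOC : LocStmt) : GlbStmt := by
  intro E _ _ w p _ hp2 hpw G g hmon hdeg hspl hsep hint hdiff _ c hc
  set V := HeightOneSpectrum.valuationSubringAtPrime E w with hV
  have hmax : w.asIdeal.IsMaximal := w.isMaximal
  have hloc : IsLocalization.AtPrime V w.asIdeal :=
    inferInstanceAs (IsLocalization w.asIdeal.primeCompl V)
  have hdvr : IsDiscreteValuationRing V :=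
    IsLocalization.AtPrime.isDiscreteValuationRing_of_dedekind_domain (𝓞 E) w.ne_bot V
  have hmem : ∀ x : E, x ∈ V ↔ w.valuation E x ≤ 1 := by
    intro x
    rw [hV, HeightOneSpectrum.valuationSubringAtPrime_eq_valuationSubring]
    exact Iff.rfl
  obtain ⟨hfin, hcard⟩ := card_le E w p Fact.out hpw
  let e : (𝓞 E ⧸ w.asIdeal) ≃+* IsLocalRing.ResidueField V :=
    IsLocalization.AtPrime.equivQuotMaximalIdeal w.asIdeal V
  have hfin' : Finite (IsLocalRing.ResidueField V) := Finite.of_equiv _ e.toEquiv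
  have hchar : CharP (IsLocalRing.ResidueField V) p := by
    have h0 : ((p : ℕ) : IsLocalRing.ResidueField V) = 0 := by
      have h1 : ((p : ℕ) : 𝓞 E ⧸ w.asIdeal) = 0 := by
        have := Ideal.Quotient.eq_zero_iff_mem.2 hpw
        simpa using this
      have h2 := congrArg e h1
      simpa using h2
    have h3 := CharP.ringChar_of_prime_eq_zero (Fact.out : p.Prime) h0
    rw [← h3]
    exact ringChar.charP _
  obtain ⟨f, hfmon, hfdeg, hfsep, hfG⟩ : ∃ f : V[X], f.Monic ∧ f.natDegree = 2 * g + 1 ∧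
      (f.map (IsLocalRing.residue V)).Separable ∧ f.map (algebraMap V E) = G := by
    classical
    set s : Finset E := G.roots.toFinset with hs
    have hG : G = ∏ a ∈ s, (X - C a) := by
      have h1 := hspl.eq_prod_roots_of_monic hmon
      have h2 : s.val = G.roots := by
        rw [hs, Multiset.toFinset_val, Multiset.dedup_eq_self]
        exact nodup_roots hsep
      rw [Finset.prod_eq_multiset_prod, h2]
      exact h1
    let a' : E → V := fun a => if h : a ∈ V then ⟨a, h⟩ else 0
    have ha' : ∀ a ∈ s, algebraMap V E (a' a) = a := by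
      intro a ha
      have h1 : a ∈ V := (hmem a).2 (hint a (Multiset.mem_toFinset.1 ha))
      simp only [a', dif_pos h1]
      rfl
    have hfmon : (∏ a ∈ s, (X - C (a' a))).Monic :=
      monic_prod_of_monic _ _ fun a _ => monic_X_sub_C _
    have hfG : (∏ a ∈ s, (X - C (a' a))).map (algebraMap V E) = G := by
      rw [Polynomial.map_prod]
      conv_rhs => rw [hG]
      apply Finset.prod_congr rfl
      intro a ha
      rw [Polynomial.map_sub, map_X, map_C, ha' a ha]
    refine ⟨∏ a ∈ s, (X - C (a' a)), hfmon, ?_, ?_, hfG⟩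
    · rw [← hdeg, ← hfG, hfmon.natDegree_map]
    · have h1 : (∏ a ∈ s, (X - C (a' a))).map (IsLocalRing.residue V)
          = ∏ a ∈ s, (X - C (IsLocalRing.residue V (a' a))) := by
        rw [Polynomial.map_prod]
        apply Finset.prod_congr rfl
        intro a _
        rw [Polynomial.map_sub, map_X, map_C]
      rw [h1, separable_prod_X_sub_C_iff']
      intro a ha b hb hab
      by_contra hne
      have h2 : w.valuation E (a - b) = 1 :=
        hdiff a (Multiset.mem_toFinset.1 ha) b (Multiset.mem_toFinset.1 hb) hne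
      rw [← sub_eq_zero, ← map_sub, IsLocalRing.residue_eq_zero_iff, IsLocalRing.mem_maximalIdeal,
        mem_nonunits_iff] at hab
      apply hab
      have h3 : (a - b)⁻¹ ∈ V := by
        rw [hmem, map_inv₀, h2, inv_one]
      have hab0 : a - b ≠ 0 := sub_ne_zero.2 hne
      apply IsUnit.of_mul_eq_one ⟨(a - b)⁻¹, h3⟩
      apply IsFractionRing.injective V E
      rw [map_mul, map_sub, ha' a ha, ha' b hb, map_one]
      exact mul_inv_cancel₀ hab0
  subst hfG
  obtain ⟨m, k, h1, h2, h3⟩ := hLOC V E p hp2 f g hfmon hfdeg hfsep c hc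
  refine ⟨m, k, h1, h2, h3.trans ?_⟩
  apply Nat.pow_le_pow_right (by norm_num)
  apply Nat.pow_le_pow_left
  rw [← Nat.card_congr e.toEquiv]
  exact hcard

end UBT.H9
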